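import Pool.Agent.H4.SOR.Targets
import Pool.Agent.H33.T2.C1
import Pool.Agent.H86.T2.EN

/-!
# Alperin–McKay, small outer reduction, module SQ: comparison of the `T`-sums of `Y` and of `K` for
an abelian defect group
-/

open scoped Classical ComplexConjugate

namespace Pool.Agent.H77.SOR

open AMc AMe AMt Pool.Agent.H77.EA.All Pool.Agent.H33.T2

/-- SQ -/
theorem sq (SE : T_SE) (KS : T_KS) (XE : T_XE) (TQ : T_TQ) : T_SQ := by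
  intro F _ π hπ ℓ _ _ Γ _ _ J Y K D Z ν ξ θ x y hKJ hYJ hKY hidx hcen hZK hKD hab hξ hsta hdef
    hθ hov hx hy z hzK hzY
  have hKnY : NIn K Y := ⟨hKY, fun u hu g hg => hKJ.nor u (hYJ.le hu) g hg⟩
  have hDY : D ≤ Y := hdef.2.1
  obtain ⟨⟨n, hn⟩, hks⟩ := KS F π hπ ℓ Γ K Y D hKnY hKD ξ hξ hdef
  obtain ⟨hstaK, hdefK⟩ := hks θ hθ hov
  obtain ⟨X1, -, X3⟩ := XE F π hπ ℓ Γ Y K (D ⊓ K) ⟨hKY, hKnY.nor, n, hn⟩ θ hθ hdefK hstaK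
  have hrel : (D ⊓ K).relIndex D = K.relIndex Y := Pool.Agent.H86.T2.relIndex_eq hKnY hDY hKD
  have hX := X3 ξ hξ hov D hDY inf_le_left hrel
  have hKiff : ∀ η ∈ IrrS Y, η ∈ K0N π ℓ Y ξ D Z ν ↔
      ∃ Θ ∈ K0N π ℓ K θ (D ⊓ K) Z ν, ∀ k ∈ K, η k = Θ k := by
    intro η hη
    constructor
    · rintro ⟨h1, h2⟩
      obtain ⟨-, Θ, hΘ, h3⟩ := (hX η).1 h1
      refine ⟨Θ, ⟨hΘ, fun w hw => ?_⟩, h3⟩
      rw [← h3 w (hZK hw), ← h3 1 K.one_mem]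
      exact h2 w hw
    · rintro ⟨Θ, ⟨hΘ, h2⟩, h3⟩
      refine ⟨(hX η).2 ⟨hη, Θ, hΘ, h3⟩, fun w hw => ?_⟩
      rw [h3 w (hZK hw), h3 1 K.one_mem]
      exact h2 w hw
  have h1 : ∀ η ∈ K0N π ℓ Y ξ D Z ν, η ∈ IrrS Y := fun η hη => hη.1.1
  have h2 : ∀ Θ ∈ K0N π ℓ K θ (D ⊓ K) Z ν, Θ ∈ IrrS K ∧ ∃ Ψ ∈ IrrS Y, ∀ k ∈ K, Ψ k = Θ k := by
    rintro Θ ⟨hΘ, -⟩
    obtain ⟨η, hη, hovη⟩ := fE4 Γ K Y hKY Θ hΘ.1
    have hblk : Blk π Y ξ η := X1 ξ hξ η hη θ hθ Θ hΘ.1 hov hovη (fun _ _ => rfl) hΘ.2.1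
    obtain ⟨Θ', hΘ', hres⟩ := SE F π hπ ℓ Γ K Y D hKnY hKD hab ξ hξ hdef η hη hblk
    refine ⟨hΘ.1, η, hη, ?_⟩
    have h5 : Θ' = Θ := by
      by_contra hne
      apply hovη
      have h6 := fS2 Γ K Θ' Θ hΘ' hΘ.1
      rw [if_neg hne] at h6
      rw [← h6]
      refine Finset.sum_congr rfl fun g _ => ?_
      by_cases hg : g ∈ K
      · rw [hres g hg]
      · rw [(show Θ g = 0 from ?_), map_zero, mul_zero, mul_zero]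
        obtain ⟨a, -, ha⟩ := hΘ.1
        rw [← ha]
        exact dif_neg hg
    rw [← h5]
    exact hres
  obtain ⟨c1, c2, c3⟩ := c1_tq hKnY h1 h2 hKiff
  have hZx : ∀ w ∈ Z, w * x = x * w := fun w hw => hcen.cen w hw x hx
  have hZy : ∀ w ∈ Z, w * y = y * w := fun w hw => hcen.cen w hw y hy
  have c4 : ∀ η ∈ K0N π ℓ Y ξ D Z ν, cj x η ∈ K0N π ℓ Y ξ D Z ν ∧
      cj y η ∈ K0N π ℓ Y ξ D Z ν := fun η hη =>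
    ⟨c1_sta (c1_nm hYJ hx) (hsta x hx) hZx η hη, c1_sta (c1_nm hYJ hy) (hsta y hy) hZy η hη⟩
  exact TQ F π hπ ℓ Γ K Y J x y _ _ hKJ hYJ hKY hidx ⟨n, hn⟩ hx hy c1 c2 c3 c4 z hzK hzY

end Pool.Agent.H77.SOR
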