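import Pool.Agent.H4.SOR.Targets
import Pool.Agent.H86.T2.WA
import Pool.Agent.H42.T2.WB
import Pool.Agent.H58.T2.WC

/-!
# Alperin–McKay, small outer reduction, module WP1: the relative equality in the ambient group from
the equalities for the quotients by central `ℓ`-subgroups
-/

open scoped Classical ComplexConjugate

set_option linter.unusedSectionVars false

namespace Pool.Agent.H77.SOR

open AMc AMe AMt Pool.Agent.H77.EA Pool.Agent.H77.EA.All Pool.Agent.H4.EA.QC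
open Pool.Agent.H39.EA Pool.Agent.H20.EA Pool.Agent.H42.T2

section

variable {ℓ : ℕ} [Fact ℓ.Prime] {𝔪 : Ideal (integralClosure ℤ ℂ)}

/-- the equality for the quotients by central `ℓ`-subgroups -/
def Quo (ℓ : ℕ) (𝔪 : Ideal (integralClosure ℤ ℂ)) (G : Type) [Group G] (D : Subgroup G) : Prop :=
  ∀ (H : Type) [Group H] [Fintype H] (p : G →* H), Function.Surjective p →
    p.ker ≤ Subgroup.center G → IsPGroup ℓ p.ker → AM1 ℓ 𝔪 H (D.map p)

/-- the case when corresponding characters of the quotients are given -/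
theorem coreI (QI : T_QI) (QN : T_QN) (QB : T_QB) (h𝔪 : 𝔪.IsMaximal)
    (hℓ : (ℓ : integralClosure ℤ ℂ) ∈ 𝔪) {G H : Type} [Group G] [Fintype G]
    [Group H] [Fintype H] (p : G →* H) (hp : Function.Surjective p)
    (hc : p.ker ≤ Subgroup.center G) (hl : IsPGroup ℓ p.ker) {D : Subgroup G}
    (hD : p.ker ≤ D) (CA : Quo ℓ 𝔪 G D) {χ : G → ℂ} {ψ : Subgroup.normalizer (D : Set G) → ℂ}
    (p' : Subgroup.normalizer (D : Set G) →*
      Subgroup.normalizer ((D.map p : Subgroup H) : Set H))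
    (hp' : Function.Surjective p')
    (hk : ∀ x : Subgroup.normalizer (D : Set G), p' x = 1 ↔ p (x : G) = 1)
    (hDm : (D.subgroupOf (Subgroup.normalizer (D : Set G))).map p' =
      (D.map p).subgroupOf (Subgroup.normalizer ((D.map p : Subgroup H) : Set H)))
    (hc' : p'.ker ≤ Subgroup.center (Subgroup.normalizer (D : Set G)))
    (hl' : IsPGroup ℓ p'.ker)
    {a : H → ℂ} {b : Subgroup.normalizer ((D.map p : Subgroup H) : Set H) → ℂ}
    (hB : Brauer ℓ 𝔪 (D.map p) a b) (h1 : SameBlock 𝔪 χ (fun g => a (p g)))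
    (h2 : SameBlock 𝔪 ψ (fun x => b (p' x))) :
    (I0Z ℓ 𝔪 χ D p.ker 1).ncard =
      (I0Z ℓ 𝔪 ψ (D.subgroupOf (Subgroup.normalizer (D : Set G)))
        (p.ker.subgroupOf (Subgroup.normalizer (D : Set G))) 1).ncard := by
  have hD' : p'.ker ≤ D.subgroupOf (Subgroup.normalizer (D : Set G)) := by
    intro x hx
    rw [Subgroup.mem_subgroupOf]
    exact hD (MonoidHom.mem_ker.2 ((hk x).1 (MonoidHom.mem_ker.1 hx)))
  rw [Pool.Agent.H86.T2.WA.inflI QI QN QB h𝔪 hℓ p hp hc hl hD rfl hB.1 h1 p.ker (fun z => MonoidHom.mem_ker),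
    Pool.Agent.H86.T2.WA.inflI QI QN QB h𝔪 hℓ p' hp' hc' hl' hD' hDm hB.2.1 h2
      (p.ker.subgroupOf (Subgroup.normalizer (D : Set G))) (fun z => by
        rw [Subgroup.mem_subgroupOf, MonoidHom.mem_ker, hk])]
  exact CA H p hp hc hl a b hB

theorem mainI (BT : T_BT) (QI : T_QI) (QN : T_QN) (QB : T_QB) (QR : T_QR) (h𝔪 : 𝔪.IsMaximal)
    (hℓ : (ℓ : integralClosure ℤ ℂ) ∈ 𝔪) {G H : Type} [Group G] [Fintype G]
    [Group H] [Fintype H] (p : G →* H) (hp : Function.Surjective p)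
    (hc : p.ker ≤ Subgroup.center G) (hl : IsPGroup ℓ p.ker) {D : Subgroup G} (CA : Quo ℓ 𝔪 G D)
    {χ : G → ℂ} {ψ : Subgroup.normalizer (D : Set G) → ℂ} (hB : Brauer ℓ 𝔪 D χ ψ) :
    (I0Z ℓ 𝔪 χ D p.ker 1).ncard =
      (I0Z ℓ 𝔪 ψ (D.subgroupOf (Subgroup.normalizer (D : Set G)))
        (p.ker.subgroupOf (Subgroup.normalizer (D : Set G))) 1).ncard := by
  have hD : p.ker ≤ D := le_defect hB.2.2.1 hc hl
  obtain ⟨-, p', hp', hpp, hk, hDm⟩ := QN G H p hp D hD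
  have hc' : p'.ker ≤ Subgroup.center (Subgroup.normalizer (D : Set G)) := by
    intro x hx
    have h1 : (x : G) ∈ Subgroup.center G :=
      hc (MonoidHom.mem_ker.2 ((hk x).1 (MonoidHom.mem_ker.1 hx)))
    rw [Subgroup.mem_center_iff]
    intro g
    apply Subtype.ext
    exact Subgroup.mem_center_iff.1 h1 g
  have hl' : IsPGroup ℓ p'.ker := by
    intro x
    obtain ⟨k, hk'⟩ := hl ⟨(x : Subgroup.normalizer (D : Set G)), MonoidHom.mem_ker.2
      ((hk x).1 (MonoidHom.mem_ker.1 x.2))⟩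
    refine ⟨k, ?_⟩
    have h1 := congrArg (Subtype.val : p.ker → G) hk'
    apply Subtype.ext
    apply Subtype.ext
    exact h1
  have hBT := BT ℓ 𝔪 h𝔪 hℓ G D
  have hBT' := BT ℓ 𝔪 h𝔪 hℓ H (D.map p)
  have hQR := QR ℓ 𝔪 h𝔪 hℓ G H p hp hc D hD p' hp' hpp
  have hQI := QI G H p hp
  have hQI' := QI _ _ p' hp'
  have hQB := QB ℓ 𝔪 h𝔪 hℓ G H p hp hc hl
  have hQB' := QB ℓ 𝔪 h𝔪 hℓ _ _ p' hp' hc' hl'
  by_cases hne : (I0Z ℓ 𝔪 χ D p.ker 1).Nonempty
  · obtain ⟨a0, ⟨ha1, ha2, -⟩, ha4⟩ := hne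
    obtain ⟨a, ha, rfl⟩ := hQI.2 a0 ha1 (fun z hz => by
      have := ha4 z (MonoidHom.mem_ker.2 hz)
      rwa [Pi.one_apply, one_mul] at this)
    have hd : IsDefect ℓ 𝔪 a (D.map p) := (hQB.2 a ha D (defect_same ha2 hB.2.2.1)).2
    obtain ⟨b, hb⟩ := hBT'.1 a ha hd
    have hcor := hQR a b hb.2.2.2.2
    have hB0 : Brauer ℓ 𝔪 D (fun g => a (p g)) ψ := (hBT.2.2.2 χ ψ hB _ ha1).2 ha2
    have hb' : (fun x => b (p' x)) ∈ Irr (Subgroup.normalizer (D : Set G)) :=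
      (hQI'.1 b).1 hb.2.1
    have h2 : SameBlock 𝔪 ψ (fun x => b (p' x)) := (hBT.2.2.1 _ ψ hB0 _ hb').1.2 hcor
    exact coreI QI QN QB h𝔪 hℓ p hp hc hl hD CA p' hp' hk hDm hc' hl' hb ha2 h2
  · by_cases hne2 : (I0Z ℓ 𝔪 ψ (D.subgroupOf (Subgroup.normalizer (D : Set G)))
        (p.ker.subgroupOf (Subgroup.normalizer (D : Set G))) 1).Nonempty
    · obtain ⟨b0, ⟨hb1, hb2, -⟩, hb4⟩ := hne2
      obtain ⟨b, hb, rfl⟩ := hQI'.2 b0 hb1 (fun z hz => by
        have := hb4 z (by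
          rw [Subgroup.mem_subgroupOf, MonoidHom.mem_ker]
          exact (hk z).1 hz)
        rwa [Pi.one_apply, one_mul] at this)
      have hd : IsDefect ℓ 𝔪 b
          ((D.map p).subgroupOf (Subgroup.normalizer ((D.map p : Subgroup H) : Set H))) := by
        rw [← hDm]
        exact (hQB'.2 b hb _ (defect_same hb2 hB.2.2.2.1)).2
      obtain ⟨a, ha⟩ := hBT'.2.1 b hb hd
      have hcor := hQR a b ha.2.2.2.2
      have hB0 : Brauer ℓ 𝔪 D χ (fun x => b (p' x)) := (hBT.2.2.1 χ ψ hB _ hb1).2 hb2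
      have h1 : SameBlock 𝔪 χ (fun g => a (p g)) :=
        (hBT.2.2.2 χ _ hB0 _ ((hQI.1 a).1 ha.1)).1.2 hcor
      exact coreI QI QN QB h𝔪 hℓ p hp hc hl hD CA p' hp' hk hDm hc' hl'
        ha h1 hb2
    · rw [Set.not_nonempty_iff_eq_empty.1 hne, Set.not_nonempty_iff_eq_empty.1 hne2,
        Set.ncard_empty, Set.ncard_empty]

end

theorem wa' (ℓ : ℕ) [Fact ℓ.Prime] (𝔪 : Ideal (integralClosure ℤ ℂ)) (h𝔪 : 𝔪.IsMaximal)
    (hℓ : (ℓ : integralClosure ℤ ℂ) ∈ 𝔪) (G : Type) [Group G] [Fintype G] (D : Subgroup G)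
    (CA : Quo ℓ 𝔪 G D) (χ : G → ℂ) (ψ : Subgroup.normalizer (D : Set G) → ℂ)
    (hB : Brauer ℓ 𝔪 D χ ψ) (Z : Subgroup G) (hc : Z ≤ Subgroup.center G) (hl : IsPGroup ℓ Z) :
    (I0Z ℓ 𝔪 χ D Z 1).ncard =
      (I0Z ℓ 𝔪 ψ (D.subgroupOf (Subgroup.normalizer (D : Set G)))
        (Z.subgroupOf (Subgroup.normalizer (D : Set G))) 1).ncard := by
  have hn : Z.Normal := ⟨fun z hz g => by
    have h1 := Subgroup.mem_center_iff.1 (hc hz) g
    rw [h1, mul_inv_cancel_right]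
    exact hz⟩
  let _ : Fintype (G ⧸ Z) := Fintype.ofFinite _
  have hk : (QuotientGroup.mk' Z).ker = Z := QuotientGroup.ker_mk' Z
  have key := mainI fBT fQI fQN fQB fQR h𝔪 hℓ (QuotientGroup.mk' Z)
    (QuotientGroup.mk'_surjective Z) (by rw [hk]; exact hc) (by rw [hk]; exact hl) CA hB
  rw [hk] at key
  exact key

theorem wb' (ℓ : ℕ) [hℓ : Fact ℓ.Prime] (𝔪 : Ideal (integralClosure ℤ ℂ)) (hmax : 𝔪.IsMaximal)
    (hℓ𝔪 : (ℓ : integralClosure ℤ ℂ) ∈ 𝔪) (G : Type) [Group G] [Fintype G] (D : Subgroup G)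
    (CA : Quo ℓ 𝔪 G D) (χ : G → ℂ) (ψ : Subgroup.normalizer (D : Set G) → ℂ)
    (hB : Brauer ℓ 𝔪 D χ ψ) (Z : Subgroup G) (hZ : Z ≤ Subgroup.center G) (hZp : IsPGroup ℓ Z)
    (ν : G → ℂ) (hν1 : ν 1 = 1) (hνm : ∀ z ∈ Z, ∀ w ∈ Z, ν (z * w) = ν z * ν w) :
    (I0Z ℓ 𝔪 χ D Z ν).ncard =
      (I0Z ℓ 𝔪 ψ (D.subgroupOf (Subgroup.normalizer (D : Set G)))
        (Z.subgroupOf (Subgroup.normalizer (D : Set G))) (fun x => ν x)).ncard := by
  have hYA : T_YA := fYA
  have hK1 : T_K1 := fK1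
  have hS1 : T_S1 := fS1
  have hS9 : T_S9 := fS9
  have hZH : T_ZH := fZH
  have hp : ℓ.Prime := hℓ.out
  obtain ⟨z₀, hz₀, hgen⟩ := exists_gen hν1 hνm
  -- membership in the normaliser
  have hZM : ∀ z ∈ Z, z ∈ (Subgroup.normalizer (D : Set G)) := by
    intro z hz
    rw [Subgroup.mem_normalizer_iff]
    intro g
    have := Subgroup.mem_center_iff.1 (hZ hz) g
    rw [← this, mul_inv_cancel_right]
  have hZ'c : Z.subgroupOf (Subgroup.normalizer (D : Set G)) ≤ Subgroup.center (Subgroup.normalizer (D : Set G)) := by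
    intro x hx
    rw [Subgroup.mem_center_iff]
    intro g
    apply Subtype.ext
    exact Subgroup.mem_center_iff.1 (hZ (Subgroup.mem_subgroupOf.1 hx)) g
  -- the induction
  have main : ∀ n : ℕ, ∀ ν : G → ℂ, ν 1 = 1 → (∀ z ∈ Z, ∀ w ∈ Z, ν (z * w) = ν z * ν w) →
      (∀ z ∈ Z, ∃ t : ℕ, ν z = ν z₀ ^ t) → orderOf (ν z₀) = n →
      (I0Z ℓ 𝔪 χ D Z ν).ncard =
        (I0Z ℓ 𝔪 ψ (D.subgroupOf (Subgroup.normalizer (D : Set G))) (Z.subgroupOf (Subgroup.normalizer (D : Set G))) (fun x => ν x)).ncard := by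
    intro n
    induction n using Nat.strong_induction_on with
    | _ n ih =>
    intro ν hν1 hνm hgen hn
    -- the order
    have hzc : z₀ ^ (Nat.card G) = 1 := pow_card_eq_one'
    have hnc : orderOf (ν z₀) ∣ Nat.card G := by
      apply orderOf_dvd_of_pow_eq_one
      rw [← mul_pow_on hν1 hνm hz₀, hzc, hν1]
    have hc0 : Nat.card G ≠ 0 := Nat.card_pos.ne'
    have hpos : 0 < orderOf (ν z₀) := Nat.pos_of_dvd_of_pos hnc Nat.card_pos
    obtain ⟨k, hk⟩ := hZp ⟨z₀, hz₀⟩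
    have hk' : z₀ ^ (ℓ ^ k) = 1 := congrArg Subtype.val hk
    have hnk : orderOf (ν z₀) ∣ ℓ ^ k := by
      apply orderOf_dvd_of_pow_eq_one
      rw [← mul_pow_on hν1 hνm hz₀, hk', hν1]
    by_cases hn1 : orderOf (ν z₀) = 1
    · -- `ν = 1` on `Z`
      have hone : ∀ z ∈ Z, ν z = (1 : G → ℂ) z := by
        intro z hz
        obtain ⟨t, ht⟩ := hgen z hz
        rw [ht, orderOf_eq_one_iff.1 hn1, one_pow, Pi.one_apply]
      rw [i0z_congr hone, i0z_congr (ν' := (1 : (Subgroup.normalizer (D : Set G)) → ℂ)) (fun z hz => hone z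
        (Subgroup.mem_subgroupOf.1 hz))]
      exact wa' ℓ 𝔪 hmax hℓ𝔪 G D CA χ ψ hB Z hZ hZp
    -- the kernel
    let K : Subgroup G :=
      { carrier := {z | z ∈ Z ∧ ν z = 1}
        mul_mem' := by
          rintro a b ⟨ha, ha'⟩ ⟨hb, hb'⟩
          exact ⟨Z.mul_mem ha hb, by rw [hνm a ha b hb, ha', hb', mul_one]⟩
        one_mem' := ⟨Z.one_mem, hν1⟩
        inv_mem' := by
          rintro a ⟨ha, ha'⟩
          refine ⟨Z.inv_mem ha, ?_⟩
          have := hνm a ha a⁻¹ (Z.inv_mem ha)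
          rw [mul_inv_cancel, hν1, ha', one_mul] at this
          exact this.symm }
    have hKmem : ∀ z, z ∈ K ↔ z ∈ Z ∧ ν z = 1 := fun z => Iff.rfl
    have hKZ : K ≤ Z := fun z hz => hz.1
    have hq := wa' ℓ 𝔪 hmax hℓ𝔪 G D CA χ ψ hB K (hKZ.trans hZ)
      (hZp.to_le hKZ)
    -- both splittings
    have hs1 := i0z_split hK1 hS1 hS9 hZH (ℓ := ℓ) (𝔪 := 𝔪) (χ := χ) (D := D) hZ hν1
      hνm hz₀ hgen hpos hKmem
    have hs2 := i0z_split hK1 hS1 hS9 hZH (ℓ := ℓ) (𝔪 := 𝔪) (χ := ψ) (D := D.subgroupOf (Subgroup.normalizer (D : Set G)))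
      (Z := Z.subgroupOf (Subgroup.normalizer (D : Set G))) (K := K.subgroupOf (Subgroup.normalizer (D : Set G)))
      (ν := fun x : (Subgroup.normalizer (D : Set G)) => ν x) (z₀ := ⟨z₀, hZM z₀ hz₀⟩) hZ'c hν1
      (fun z hz w hw => hνm z (Subgroup.mem_subgroupOf.1 hz) w (Subgroup.mem_subgroupOf.1 hw))
      (Subgroup.mem_subgroupOf.2 hz₀) (fun z hz => hgen z (Subgroup.mem_subgroupOf.1 hz)) hpos
      (fun z => by rw [Subgroup.mem_subgroupOf, Subgroup.mem_subgroupOf]; exact Iff.rfl)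
    rw [hs1, hs2] at hq
    -- the parts with `i` not divisible by `ℓ`
    have hG : ∀ i, ¬ ℓ ∣ i → (I0Z ℓ 𝔪 χ D Z (fun z => ν z ^ i)).ncard =
          (I0Z ℓ 𝔪 χ D Z ν).ncard ∧
        (I0Z ℓ 𝔪 ψ (D.subgroupOf (Subgroup.normalizer (D : Set G))) (Z.subgroupOf (Subgroup.normalizer (D : Set G)))
          (fun x : (Subgroup.normalizer (D : Set G)) => ν x ^ i)).ncard =
          (I0Z ℓ 𝔪 ψ (D.subgroupOf (Subgroup.normalizer (D : Set G))) (Z.subgroupOf (Subgroup.normalizer (D : Set G)))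
          (fun x : (Subgroup.normalizer (D : Set G)) => ν x)).ncard := by
      intro i hi
      obtain ⟨m, hm1, hm2, hm3⟩ := exists_m hp hc0 hnc hnk hi
      have hmi : ∀ z ∈ Z, ν z ^ i = ν z ^ m := by
        intro z hz
        obtain ⟨t, ht⟩ := hgen z hz
        have h1 : ν z₀ ^ i = ν z₀ ^ m := by
          rw [← pow_mod_orderOf (ν z₀) i, ← pow_mod_orderOf (ν z₀) m, hm2]
        rw [ht, ← pow_mul, ← pow_mul, mul_comm t i, mul_comm t m, pow_mul, pow_mul, h1]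
      constructor
      · rw [i0z_congr hmi]
        refine i0z_pow hYA ℓ 𝔪 hmax hℓ𝔪 D χ hB.1 Z ν hν1 hνm m hm1 ?_
        intro g hg
        have h1 := hm3 (orderOf g) (orderOf_dvd_natCard g) hg
        rw [← pow_eq_pow_iff_modEq, pow_one] at h1
        exact h1
      · rw [i0z_congr (N := (Subgroup.normalizer (D : Set G))) (ν := fun x : (Subgroup.normalizer (D : Set G)) => ν x ^ i) (ν' := fun x : (Subgroup.normalizer (D : Set G)) => ν x ^ m)
          (fun z hz => hmi z (Subgroup.mem_subgroupOf.1 hz))]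
        refine i0z_pow hYA ℓ 𝔪 hmax hℓ𝔪 (D.subgroupOf (Subgroup.normalizer (D : Set G))) ψ hB.2.1 (Z.subgroupOf (Subgroup.normalizer (D : Set G)))
          (fun x : (Subgroup.normalizer (D : Set G)) => ν x) hν1 (fun z hz w hw => hνm z (Subgroup.mem_subgroupOf.1 hz) w
            (Subgroup.mem_subgroupOf.1 hw)) m
          (Nat.Coprime.coprime_dvd_left (Subgroup.card_subgroup_dvd_card (Subgroup.normalizer (D : Set G))) hm1) ?_
        intro g hg
        rw [← Subgroup.orderOf_coe] at hg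
        have h1 := hm3 (orderOf (g : G)) (orderOf_dvd_natCard _) hg
        rw [← pow_eq_pow_iff_modEq, pow_one] at h1
        apply Subtype.ext
        exact h1
    -- the parts with `i` divisible by `ℓ`
    have hL : ∀ i, ℓ ∣ i → (I0Z ℓ 𝔪 χ D Z (fun z => ν z ^ i)).ncard =
        (I0Z ℓ 𝔪 ψ (D.subgroupOf (Subgroup.normalizer (D : Set G))) (Z.subgroupOf (Subgroup.normalizer (D : Set G)))
          (fun x : (Subgroup.normalizer (D : Set G)) => ν x ^ i)).ncard := by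
      intro i hi
      have hlt : orderOf (ν z₀ ^ i) < n := by
        have h1 : orderOf (ν z₀ ^ i) ∣ orderOf (ν z₀) := orderOf_pow_dvd i
        refine lt_of_le_of_ne (by rw [← hn]; exact Nat.le_of_dvd hpos h1) ?_
        intro h2
        obtain ⟨b, hb, hb2⟩ := (Nat.dvd_prime_pow hp).1 hnk
        have hb0 : b ≠ 0 := by
          rintro rfl
          exact hn1 hb2
        obtain ⟨i', rfl⟩ := hi
        obtain ⟨b', rfl⟩ := Nat.exists_eq_succ_of_ne_zero hb0
        have h3 : orderOf (ν z₀ ^ (ℓ * i')) ∣ ℓ ^ b' := by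
          apply orderOf_dvd_of_pow_eq_one
          rw [← pow_mul]
          have : ℓ * i' * ℓ ^ b' = orderOf (ν z₀) * i' := by rw [hb2, pow_succ]; ring
          rw [this, pow_mul, pow_orderOf_eq_one, one_pow]
        have h4 := Nat.le_of_dvd (pow_pos hp.pos _) h3
        rw [h2, ← hn, hb2] at h4
        exact absurd h4 (not_le.2 (Nat.pow_lt_pow_right hp.one_lt (Nat.lt_succ_self b')))
      refine ih _ hlt (fun z => ν z ^ i) ?_ ?_ ?_ rfl
      · show ν 1 ^ i = 1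
        rw [hν1, one_pow]
      · intro z hz w hw
        show ν (z * w) ^ i = ν z ^ i * ν w ^ i
        rw [hνm z hz w hw, mul_pow]
      · intro z hz
        obtain ⟨t, ht⟩ := hgen z hz
        refine ⟨t, ?_⟩
        show ν z ^ i = (ν z₀ ^ i) ^ t
        rw [ht, ← pow_mul, ← pow_mul, mul_comm]
    -- comparison of the sums
    set x := (I0Z ℓ 𝔪 χ D Z ν).ncard
    set y := (I0Z ℓ 𝔪 ψ (D.subgroupOf (Subgroup.normalizer (D : Set G))) (Z.subgroupOf (Subgroup.normalizer (D : Set G)))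
          (fun x : (Subgroup.normalizer (D : Set G)) => ν x)).ncard
    by_contra hxy
    have hlt : (1 : ℕ) < orderOf (ν z₀) := by omega
    have h1mem : 1 ∈ Finset.range (orderOf (ν z₀)) := Finset.mem_range.2 hlt
    have h1l : ¬ ℓ ∣ 1 := hp.one_lt.ne' ∘ Nat.dvd_one.1
    rcases lt_or_gt_of_ne hxy with hlt2 | hlt2
    · refine absurd hq (ne_of_lt (Finset.sum_lt_sum (fun i _ => ?_) ⟨1, h1mem, ?_⟩))
      · by_cases hi : ℓ ∣ i
        · exact (hL i hi).le
        · rw [(hG i hi).1, (hG i hi).2]; exact hlt2.le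
      · rw [(hG 1 h1l).1, (hG 1 h1l).2]; exact hlt2
    · refine absurd hq.symm (ne_of_lt (Finset.sum_lt_sum (fun i _ => ?_) ⟨1, h1mem, ?_⟩))
      · by_cases hi : ℓ ∣ i
        · exact (hL i hi).ge
        · rw [(hG i hi).1, (hG i hi).2]; exact hlt2.le
      · rw [(hG 1 h1l).1, (hG 1 h1l).2]; exact hlt2
  exact main _ ν hν1 hνm hgen rfl

/-- WP1 -/
theorem wp1 : T_WP1 := by
  intro F _ π hπ ℓ _ _ Γ _ _ N P Z ν hcen hPN hAM χ hχ hdef ψ hψ hcor
  have H := fHypG.toHypF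
  set j : N →* Γ := N.subtype with hj
  have hji : Function.Injective j := Subtype.val_injective
  have hjr : j.range = N := Subgroup.range_subtype N
  set D : Subgroup N := P.subgroupOf N with hD
  have hDj : D.map j = P := by
    rw [hD, hj, Subgroup.subgroupOf_map_subtype, inf_eq_left.2 hPN]
  have hdef' := (((H.ST F π hπ ℓ Γ N P).1 χ hχ hdef).2 ψ hψ hcor).1
  obtain ⟨χ', hχ', rfl⟩ := (H.K1 N Γ j hji).2.2.1 χ (by rw [hjr]; exact hχ)
  have hj'i : Function.Injective (j.comp (Subgroup.normalizer (D : Set N)).subtype) :=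
    hji.comp Subtype.val_injective
  have hr : (j.comp (Subgroup.normalizer (D : Set N)).subtype).range =
      N ⊓ Subgroup.normalizer (P : Set Γ) := by
    rw [MonoidHom.range_comp, Subgroup.range_subtype,
      (H.K2 N Γ j hji (RingHom.ker π) ℓ χ' D).2.2.2, hDj, hjr]
  obtain ⟨ψ', hψ', rfl⟩ := (H.K1 _ Γ _ hj'i).2.2.1 ψ (by rw [hr]; exact hψ)
  obtain ⟨_, _, h3, h4, h5, _, h7⟩ := dict hπ H j hji D χ' ψ' hχ' hψ'
  rw [hDj, hjr] at h3 h4 h5
  have hDp : IsPGroup ℓ D := hdef.1.comap_of_injective _ Subtype.val_injective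
  have hB : Brauer ℓ (RingHom.ker π) D χ' ψ' :=
    ⟨hχ', hψ', h3.2 hdef, h4.2 hdef', (h5 hDp).2 hcor⟩
  have hmax : (RingHom.ker π).IsMaximal := RingHom.ker_isMaximal_of_surjective π hπ
  have hℓm : (ℓ : integralClosure ℤ ℂ) ∈ RingHom.ker π := by
    rw [RingHom.mem_ker, map_natCast]
    exact CharP.cast_eq_zero F ℓ
  have hZc : Z.subgroupOf N ≤ Subgroup.center N := by
    intro z hz
    rw [Subgroup.mem_center_iff]
    intro g
    apply Subtype.ext
    exact (hcen.cen z hz g g.2).symm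
  have hZP : Z ≤ Subgroup.normalizer (P : Set Γ) := by
    intro z hz
    rw [Subgroup.mem_normalizer_iff]
    intro g
    by_cases hg : g ∈ N
    · have : z * g * z⁻¹ = g := by
        rw [hcen.cen z hz g hg]
        group
      rw [this]
    · have h1 : z ∈ N := hcen.le hz
      constructor
      · intro h
        exact absurd (hPN h) hg
      · intro h
        have h2 := N.mul_mem (N.mul_mem (N.inv_mem h1) (hPN h)) h1
        have h3 : z⁻¹ * (z * g * z⁻¹) * z = g := by group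
        rw [h3] at h2
        exact absurd h2 hg
  have hνm : ∀ z ∈ Z.subgroupOf N, ∀ w ∈ Z.subgroupOf N,
      (fun n : N => ν n) (z * w) = (fun n : N => ν n) z * (fun n : N => ν n) w :=
    fun z hz w hw => hcen.mul z hz w hw
  have key := wb' ℓ (RingHom.ker π) hmax hℓm N D hAM χ' ψ' hB
    (Z.subgroupOf N ⊓ lz ℓ N) (inf_le_left.trans hZc)
    ((lz_pgroup ℓ N).to_le inf_le_right) (fun n => ν n) hcen.one
    (fun z hz w hw => hνm z hz.1 w hw.1)
  have key2 := Pool.Agent.H58.T2.WC.step hmax hℓm hB hZc hνm key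
  have hZ1 : (Z.subgroupOf N).map j = Z := by
    rw [hj, Subgroup.subgroupOf_map_subtype, inf_eq_left.2 hcen.le]
  have hZ2 : ((Z.subgroupOf N).subgroupOf (Subgroup.normalizer (D : Set N))).map
      (j.comp (Subgroup.normalizer (D : Set N)).subtype) = Z := by
    ext g
    constructor
    · rintro ⟨n, hn, rfl⟩
      exact hn
    · intro hg
      have h1 : g ∈ (j.comp (Subgroup.normalizer (D : Set N)).subtype).range := by
        rw [hr]
        exact ⟨hcen.le hg, hZP hg⟩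
      obtain ⟨n, rfl⟩ := h1
      exact ⟨n, hg, rfl⟩
  rw [Pool.Agent.H58.T2.WC.card_Z hπ hji hχ' D ν hZ1 (μ := fun n : N => ν n) (fun n => rfl), Pool.Agent.H58.T2.WC.card_Z hπ hj'i hψ'
    (D.subgroupOf (Subgroup.normalizer (D : Set N))) ν hZ2
    (μ := fun x : Subgroup.normalizer (D : Set N) => ν x) (fun n => rfl), h7, hr, hDj, hjr]
    at key2
  exact key2

end Pool.Agent.H77.SOR
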